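import Pool.Agent.X240.PM.Core

/-!
3SUM with sum zero is hard for parallel machines with word inputs.
-/

set_option autoImplicit false

namespace Pool.Agent.X240.PM

open Finset Pool.Agent.W964.Wd

/-- An instance of integer 3SUM, as a strictly increasing list of `n` integers from `-n ^ 4` to
`n ^ 4`. -/
def ZeroInst (n : ℕ) (x : Fin n → ℤ) : Prop := StrictMono x ∧ ∀ i, |x i| ≤ (n : ℤ) ^ 4

/-- Three entries of the list with distinct indices have the sum zero. -/
def ZeroYes {n : ℕ} (x : Fin n → ℤ) : Prop :=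
  ∃ i j k, i ≠ j ∧ i ≠ k ∧ j ≠ k ∧ x i + x j + x k = 0

/-- The list which consists of the numbers `± arr Z t`, `t ≥ 1`, and perhaps a large number. -/
def enc (m h : ℕ) {N : ℕ} (Z : Fin (h + 1) → Fin N) : Fin m → ℤ := fun j =>
  if h1 : j.val < h then -arr Z ⟨h - j.val, by omega⟩ else
  if h2 : j.val < 2 * h then arr Z ⟨j.val - h + 1, by omega⟩ else 2 * N * (h + 1)

variable {m h N : ℕ}

theorem enc_blk : Blk (enc m h (N := N)) := by
  intro j
  by_cases h1 : j.val < h
  · refine ⟨⟨h - j.val, by omega⟩, fun Y Y' hY => ?_⟩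
    unfold enc arr
    rw [dif_pos h1, dif_pos h1, hY]
  · by_cases h2 : j.val < 2 * h
    · refine ⟨⟨j.val - h + 1, by omega⟩, fun Y Y' hY => ?_⟩
      unfold enc arr
      rw [dif_neg h1, dif_neg h1, dif_pos h2, dif_pos h2, hY]
    · refine ⟨0, fun Y Y' _ => ?_⟩
      unfold enc
      rw [dif_neg h1, dif_neg h1, dif_neg h2, dif_neg h2]

theorem cls (hm : m ≤ 2 * h + 1) (Z : Fin (h + 1) → Fin N) (j : Fin m) :
    (∃ t : Fin (h + 1), 1 ≤ t.val ∧ j.val + t.val = h ∧ enc m h Z j = -arr Z t) ∨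
    (∃ t : Fin (h + 1), 1 ≤ t.val ∧ j.val + 1 = h + t.val ∧ enc m h Z j = arr Z t) ∨
    (j.val = 2 * h ∧ enc m h Z j = 2 * N * (h + 1)) := by
  have hj := j.isLt
  by_cases h1 : j.val < h
  · refine Or.inl ⟨⟨h - j.val, by omega⟩, by simp only; omega, by simp only; omega, ?_⟩
    unfold enc
    rw [dif_pos h1]
  · by_cases h2 : j.val < 2 * h
    · refine Or.inr (Or.inl ⟨⟨j.val - h + 1, by omega⟩, by simp only; omega, by
        simp only; omega, ?_⟩)
      unfold enc
      rw [dif_neg h1, dif_pos h2]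
    · refine Or.inr (Or.inr ⟨by omega, ?_⟩)
      unfold enc
      rw [dif_neg h1, dif_neg h2]

theorem arr_pos (Z : Fin (h + 1) → Fin N) (t : Fin (h + 1)) (ht : 1 ≤ t.val) :
    (N : ℤ) ≤ arr Z t ∧ arr Z t < N * (h + 1) := by
  unfold arr
  have h1 : (1 : ℤ) ≤ t.val := by exact_mod_cast ht
  have h2 : (0 : ℤ) ≤ (Z t).val := by positivity
  have h3 : ((Z t).val : ℤ) < N := by exact_mod_cast (Z t).isLt
  have h4 : (t.val : ℤ) ≤ h := by
    have := t.isLt
    exact_mod_cast (by omega : t.val ≤ h)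
  have h5 : (0 : ℤ) ≤ N := by positivity
  constructor
  · nlinarith
  · nlinarith

theorem arr_mono (Z : Fin (h + 1) → Fin N) {s t : Fin (h + 1)} (hst : s.val < t.val) :
    arr Z s < arr Z t := by
  unfold arr
  have h1 : (s.val : ℤ) + 1 ≤ t.val := by exact_mod_cast hst
  have h2 : (0 : ℤ) ≤ (Z t).val := by positivity
  have h3 : ((Z s).val : ℤ) < N := by exact_mod_cast (Z s).isLt
  have h5 : (0 : ℤ) ≤ N := by positivity
  nlinarith

theorem yes_of (hN : 1 ≤ N) (Z : Fin (h + 1) → Fin N) {a b c : Fin (h + 1)} (ha : 1 ≤ a.val)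
    (hb : 1 ≤ b.val) (hab : a.val ≠ b.val) (h1 : arr Z a + arr Z b = arr Z c) :
    SumYes (arr Z) := by
  have hN' : (1 : ℤ) ≤ N := by exact_mod_cast hN
  have pa := (arr_pos Z a ha).1
  have pb := (arr_pos Z b hb).1
  refine ⟨a, b, c, fun e => hab (by rw [e]), ?_, ?_, h1⟩
  · rintro rfl
    linarith
  · rintro rfl
    linarith

theorem sum_of_zero (hN : 1 ≤ N) (hm : m ≤ 2 * h + 1) (Z : Fin (h + 1) → Fin N)
    (hy : ZeroYes (enc m h Z)) : SumYes (arr Z) := by
  have hN' : (1 : ℤ) ≤ N := by exact_mod_cast hN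
  have hh : (1 : ℤ) ≤ (h : ℤ) + 1 := by
    have : (0 : ℤ) ≤ h := by positivity
    linarith
  have hNh : (1 : ℤ) ≤ N * ((h : ℤ) + 1) := by nlinarith
  obtain ⟨i, j, k, hij, hik, hjk, hs⟩ := hy
  have hij' : i.val ≠ j.val := fun e => hij (Fin.ext e)
  have hik' : i.val ≠ k.val := fun e => hik (Fin.ext e)
  have hjk' : j.val ≠ k.val := fun e => hjk (Fin.ext e)
  rcases cls hm Z i with ⟨a, ha, hi, ei⟩ | ⟨a, ha, hi, ei⟩ | ⟨hi, ei⟩ <;>
  rcases cls hm Z j with ⟨b, hb, hj, ej⟩ | ⟨b, hb, hj, ej⟩ | ⟨hj, ej⟩ <;>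
  rcases cls hm Z k with ⟨c, hc, hk, ek⟩ | ⟨c, hc, hk, ek⟩ | ⟨hk, ek⟩ <;>
  rw [ei, ej, ek] at hs
  · exfalso
    have := (arr_pos Z a ha).1
    have := (arr_pos Z b hb).1
    have := (arr_pos Z c hc).1
    linarith
  · exact yes_of hN Z ha hb (by omega) (by linarith : arr Z a + arr Z b = arr Z c)
  · exfalso
    have := (arr_pos Z a ha).2
    have := (arr_pos Z b hb).2
    linarith
  · exact yes_of hN Z ha hc (by omega) (by linarith : arr Z a + arr Z c = arr Z b)
  · exact yes_of hN Z hb hc (by omega) (by linarith : arr Z b + arr Z c = arr Z a)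
  · exfalso
    have := (arr_pos Z a ha).2
    have := (arr_pos Z b hb).1
    linarith
  · exfalso
    have := (arr_pos Z a ha).2
    have := (arr_pos Z c hc).2
    linarith
  · exfalso
    have := (arr_pos Z a ha).2
    have := (arr_pos Z c hc).1
    linarith
  · omega
  · exact yes_of hN Z hb hc (by omega) (by linarith : arr Z b + arr Z c = arr Z a)
  · exact yes_of hN Z ha hc (by omega) (by linarith : arr Z a + arr Z c = arr Z b)
  · exfalso
    have := (arr_pos Z a ha).1
    have := (arr_pos Z b hb).2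
    linarith
  · exact yes_of hN Z ha hb (by omega) (by linarith : arr Z a + arr Z b = arr Z c)
  · exfalso
    have := (arr_pos Z a ha).1
    have := (arr_pos Z b hb).1
    have := (arr_pos Z c hc).1
    linarith
  · exfalso
    have := (arr_pos Z a ha).1
    have := (arr_pos Z b hb).1
    linarith
  · exfalso
    have := (arr_pos Z a ha).1
    have := (arr_pos Z c hc).2
    linarith
  · exfalso
    have := (arr_pos Z a ha).1
    have := (arr_pos Z c hc).1
    linarith
  · omega
  · exfalso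
    have := (arr_pos Z b hb).2
    have := (arr_pos Z c hc).2
    linarith
  · exfalso
    have := (arr_pos Z b hb).2
    have := (arr_pos Z c hc).1
    linarith
  · omega
  · exfalso
    have := (arr_pos Z b hb).1
    have := (arr_pos Z c hc).2
    linarith
  · exfalso
    have := (arr_pos Z b hb).1
    have := (arr_pos Z c hc).1
    linarith
  · omega
  · omega
  · omega
  · omega

theorem zero_of_planted (hm : 2 * h ≤ m) (Z : Fin (h + 1) → Fin N)
    (κ : Fin ((h + 1) / 4) × Fin ((h + 1) / 4))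
    (hs : arr Z (pos3 κ 0) + arr Z (pos3 κ 1) = arr Z (pos3 κ 2)) :
    ZeroYes (enc m h Z) := by
  have p0 := pos3_0 κ
  have p1 := pos3_1 κ
  have p2 := pos3_2 κ
  have b0 := (pos3 κ 0).isLt
  have b1 := (pos3 κ 1).isLt
  have b2 := (pos3 κ 2).isLt
  have k0 := κ.1.isLt
  have e0 : enc m h Z ⟨h + (pos3 κ 0).val - 1, by omega⟩ = arr Z (pos3 κ 0) := by
    unfold enc
    rw [dif_neg (by simp only; omega), dif_pos (by simp only; omega)]
    congr 1
    apply Fin.ext
    simp only
    omega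
  have e1 : enc m h Z ⟨h + (pos3 κ 1).val - 1, by omega⟩ = arr Z (pos3 κ 1) := by
    unfold enc
    rw [dif_neg (by simp only; omega), dif_pos (by simp only; omega)]
    congr 1
    apply Fin.ext
    simp only
    omega
  have e2 : enc m h Z ⟨h - (pos3 κ 2).val, by omega⟩ = -arr Z (pos3 κ 2) := by
    unfold enc
    rw [dif_pos (by simp only; omega)]
    congr 2
    apply Fin.ext
    simp only
    omega
  refine ⟨⟨h + (pos3 κ 0).val - 1, by omega⟩, ⟨h + (pos3 κ 1).val - 1, by omega⟩,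
    ⟨h - (pos3 κ 2).val, by omega⟩, ?_, ?_, ?_, ?_⟩
  · intro e
    have := congrArg Fin.val e
    simp only at this
    omega
  · intro e
    have := congrArg Fin.val e
    simp only at this
    omega
  · intro e
    have := congrArg Fin.val e
    simp only at this
    omega
  · rw [e0, e1, e2]
    linarith

theorem enc_inst (hm1 : 2 ≤ m) (hh : h = m / 2) (hN : N = (h + 1) ^ 2)
    (Z : Fin (h + 1) → Fin N) : ZeroInst m (enc m h Z) := by
  have hm : m ≤ 2 * h + 1 := by omega
  have hN1 : 1 ≤ N := by rw [hN]; exact Nat.one_le_pow _ _ (by omega)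
  have hN' : (1 : ℤ) ≤ N := by exact_mod_cast hN1
  have hNh : (0 : ℤ) < N * ((h : ℤ) + 1) := by positivity
  constructor
  · intro i j hij
    rw [Fin.lt_def] at hij
    rcases cls hm Z i with ⟨a, ha, hi, ei⟩ | ⟨a, ha, hi, ei⟩ | ⟨hi, ei⟩ <;>
    rcases cls hm Z j with ⟨b, hb, hj, ej⟩ | ⟨b, hb, hj, ej⟩ | ⟨hj, ej⟩ <;>
    rw [ei, ej]
    · exact neg_lt_neg (arr_mono Z (by omega))
    · have := (arr_pos Z a ha).1
      have := (arr_pos Z b hb).1
      linarith
    · have := (arr_pos Z a ha).1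
      linarith
    · exfalso
      omega
    · exact arr_mono Z (by omega)
    · have := (arr_pos Z a ha).2
      linarith
    · exfalso
      omega
    · exfalso
      have := b.isLt
      omega
    · exfalso
      omega
  · intro i
    have h1 : 2 * (N * (h + 1)) ≤ m ^ 4 := by
      have h2 : 2 * (h + 1) ≤ 2 * m := by omega
      have h3 : h + 1 ≤ m := by omega
      rw [hN]
      calc 2 * ((h + 1) ^ 2 * (h + 1)) = 2 * (h + 1) ^ 3 := by ring
        _ ≤ m * m ^ 3 := Nat.mul_le_mul hm1 (Nat.pow_le_pow_left h3 3)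
        _ = m ^ 4 := by ring
    have h4 : 2 * (N : ℤ) * ((h : ℤ) + 1) ≤ (m : ℤ) ^ 4 := by
      have : ((2 * (N * (h + 1)) : ℕ) : ℤ) ≤ ((m ^ 4 : ℕ) : ℤ) := by exact_mod_cast h1
      push_cast at this
      linarith
    rcases cls hm Z i with ⟨a, ha, hi, ei⟩ | ⟨a, ha, hi, ei⟩ | ⟨hi, ei⟩ <;> rw [ei]
    · have := (arr_pos Z a ha).1
      have := (arr_pos Z a ha).2
      rw [abs_neg, abs_of_nonneg (by linarith)]
      linarith
    · have := (arr_pos Z a ha).1
      have := (arr_pos Z a ha).2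
      rw [abs_of_nonneg (by linarith)]
      linarith
    · rw [abs_of_nonneg (by positivity)]
      exact h4

end Pool.Agent.X240.PM
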