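import Mathlib
import Pool.Agent.X240.PM.Zero

/-!
3SUM with sum zero is hard for parallel machines with word inputs.
-/

set_option autoImplicit false

namespace Pool.Agent.X240.PM

open Finset Pool.Agent.W964.Wd

open Classical in
theorem zero_core (ε : ℝ) (hε : 0 < ε) (hε1 : ε ≤ 1) (K : ℕ) : ∃ δ : ℝ, 0 < δ ∧ ∃ n₀ : ℕ,
    ∀ n : ℕ, n₀ ≤ n → ∃ (Ξ : Type) (_ : Fintype Ξ) (μ : Ξ → ℝ) (x x' : Ξ → Fin n → ℤ),
      (∀ ξ, 0 ≤ μ ξ) ∧ ∑ ξ, μ ξ = 1 ∧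
      (∀ ξ, μ ξ ≠ 0 → ZeroInst n (x ξ) ∧ ¬ ZeroYes (x ξ) ∧ ZeroInst n (x' ξ) ∧
        ZeroYes (x' ξ)) ∧
      ∀ T P : ℕ, 1 ≤ T → T * Real.log (Real.log n) ≤ δ * Real.log n →
        (P : ℝ) ≤ (n : ℝ) ^ (2 - ε) → ∀ M : Machine ℤ (Fin n) P, M.Lists (n ^ K) →
        ∑ ξ, μ ξ * (if M.result T (x ξ) ≠ M.result T (x' ξ) then (1 : ℝ) else 0) ≤
          (n : ℝ) ^ (-(ε / 12)) := by
  obtain ⟨δ, hδ, n₁, hcore⟩ := core (ε / 2) (by linarith) (by linarith) (2 * K)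
  refine ⟨δ / 2, by linarith, max (max (2 * n₁) 8) (2 * ⌈(4 : ℝ) ^ (2 / ε)⌉₊), ?_⟩
  intro m hm
  have hm1 : 2 * n₁ ≤ m := le_trans (le_trans (le_max_left _ _) (le_max_left _ _)) hm
  have hm8 : 8 ≤ m := le_trans (le_trans (le_max_right _ _) (le_max_left _ _)) hm
  have hmc : 2 * ⌈(4 : ℝ) ^ (2 / ε)⌉₊ ≤ m := le_trans (le_max_right _ _) hm
  obtain ⟨h, hh⟩ : ∃ h, h = m / 2 := ⟨_, rfl⟩
  have hn1 : n₁ ≤ h + 1 := by omega
  have hn4 : 4 ≤ h + 1 := by omega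
  have hnm : h + 1 ≤ m := by omega
  have hm2 : m ≤ 2 * (h + 1) := by omega
  have hmsq : m ≤ (h + 1) ^ 2 := by nlinarith
  have hnR : (0 : ℝ) < ((h + 1 : ℕ) : ℝ) := by exact_mod_cast (by omega : 0 < h + 1)
  have hnR4 : (4 : ℝ) ≤ ((h + 1 : ℕ) : ℝ) := by exact_mod_cast hn4
  have hnmR : ((h + 1 : ℕ) : ℝ) ≤ (m : ℝ) := by exact_mod_cast hnm
  have hm2R : (m : ℝ) ≤ 2 * ((h + 1 : ℕ) : ℝ) := by exact_mod_cast hm2
  have hmsqR : (m : ℝ) ≤ ((h + 1 : ℕ) : ℝ) ^ 2 := by exact_mod_cast hmsq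
  have hmR : (0 : ℝ) < m := by linarith
  have hbig : (4 : ℝ) ≤ ((h + 1 : ℕ) : ℝ) ^ (ε / 2) := by
    have h0 : ⌈(4 : ℝ) ^ (2 / ε)⌉₊ ≤ h + 1 := by omega
    have h1 : (4 : ℝ) ^ (2 / ε) ≤ ((h + 1 : ℕ) : ℝ) := (Nat.le_ceil _).trans (by exact_mod_cast h0)
    have h2 := Real.rpow_le_rpow (by positivity) h1 (by positivity : 0 ≤ ε / 2)
    rw [← Real.rpow_mul (by norm_num)] at h2
    have h3 : 2 / ε * (ε / 2) = 1 := by field_simp
    rwa [h3, Real.rpow_one] at h2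
  have hN1 : 1 ≤ (h + 1) ^ 2 := Nat.one_le_pow _ _ (by omega)
  obtain ⟨Ξ, fΞ, μ, Z, Z', h0, h1, h2, h3⟩ := hcore (h + 1) hn1 ((h + 1) ^ 2) rfl
  refine ⟨Ξ, fΞ, μ, fun ξ => enc m h (Z ξ), fun ξ => enc m h (Z' ξ), h0, h1, ?_, ?_⟩
  · intro ξ hξ
    obtain ⟨h4, κ, h5⟩ := h2 ξ hξ
    exact ⟨enc_inst (by omega) hh rfl _, fun hy => h4 (sum_of_zero hN1 (by omega) _ hy),
      enc_inst (by omega) hh rfl _, zero_of_planted (by omega) _ κ h5⟩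
  · intro T P hT hTn hP M hM
    have hlog0 : 1 < Real.log ((h + 1 : ℕ) : ℝ) := by
      have e3 : Real.exp 1 < ((h + 1 : ℕ) : ℝ) := by
        have := Real.exp_one_lt_d9
        linarith
      exact (Real.lt_log_iff_exp_lt hnR).2 e3
    have hlogm : Real.log ((h + 1 : ℕ) : ℝ) ≤ Real.log m := Real.log_le_log hnR hnmR
    have hlog2 : Real.log m ≤ 2 * Real.log ((h + 1 : ℕ) : ℝ) := by
      have := Real.log_le_log hmR hmsqR
      rwa [Real.log_pow, Nat.cast_ofNat] at this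
    have hll : Real.log (Real.log ((h + 1 : ℕ) : ℝ)) ≤ Real.log (Real.log m) :=
      Real.log_le_log (by linarith) hlogm
    have hTR : (0 : ℝ) ≤ T := by positivity
    have hT' : (T : ℝ) * Real.log (Real.log ((h + 1 : ℕ) : ℝ)) ≤
        δ * Real.log ((h + 1 : ℕ) : ℝ) := by
      have e1 := mul_le_mul_of_nonneg_left hll hTR
      have e2 : δ / 2 * Real.log m ≤ δ * Real.log ((h + 1 : ℕ) : ℝ) := by
        have := mul_le_mul_of_nonneg_left hlog2 (by linarith : 0 ≤ δ / 2)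
        linarith
      linarith
    have hP' : (P : ℝ) ≤ ((h + 1 : ℕ) : ℝ) ^ (2 - ε / 2) := by
      refine hP.trans ?_
      have e1 : (m : ℝ) ^ (2 - ε) ≤ (2 * ((h + 1 : ℕ) : ℝ)) ^ (2 - ε) :=
        Real.rpow_le_rpow hmR.le hm2R (by linarith)
      rw [Real.mul_rpow (by norm_num) hnR.le] at e1
      have e2 : (2 : ℝ) ^ (2 - ε) ≤ 4 := by
        have := Real.rpow_le_rpow_of_exponent_le (by norm_num : (1 : ℝ) ≤ 2)
          (by linarith : 2 - ε ≤ 2)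
        have e3 : (2 : ℝ) ^ (2 : ℝ) = 4 := by
          rw [show (2 : ℝ) = ((2 : ℕ) : ℝ) by norm_num, Real.rpow_natCast]
          norm_num
        linarith
      have e4 : ((h + 1 : ℕ) : ℝ) ^ (2 - ε / 2) =
          ((h + 1 : ℕ) : ℝ) ^ (ε / 2) * ((h + 1 : ℕ) : ℝ) ^ (2 - ε) := by
        rw [← Real.rpow_add hnR]
        congr 1
        ring
      rw [e4]
      refine e1.trans (mul_le_mul_of_nonneg_right (e2.trans hbig) (by positivity))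
    have hL : M.Lists ((h + 1) ^ (2 * K)) := by
      intro q
      refine (hM q).trans ?_
      rw [pow_mul]
      exact Nat.pow_le_pow_left hmsq K
    refine (h3 ℤ (Fin m) (enc m h) enc_blk T P hT hT' hP' M hL).trans ?_
    have e1 : ((h + 1 : ℕ) : ℝ) ^ (-(ε / 2 / 3)) = (((h + 1 : ℕ) : ℝ) ^ 2) ^ (-(ε / 12)) := by
      rw [← Real.rpow_natCast, ← Real.rpow_mul hnR.le]
      congr 1
      push_cast
      ring
    rw [e1]
    exact Real.rpow_le_rpow_of_nonpos hmR hmsqR (by linarith)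

end Pool.Agent.X240.PM
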