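import Mathlib
import Pool.Agent.X240.PM.Zero

/-!
A parallel machine with `n ^ 2` processors that solves 3SUM in three steps.
-/

set_option linter.unusedSectionVars false

namespace Pool.Agent.X240.PM

open Pool.Agent.W964.Wd

lemma fs_one {α β : Type*} (l : List α) (f : α → Option β) (v : β)
    (h1 : ∃ a ∈ l, f a = some v) (h2 : ∀ a ∈ l, ∀ w, f a = some w → w = v) :
    l.findSome? f = some v := by
  cases hl : l.findSome? f with
  | none =>
    obtain ⟨a, ha, hv⟩ := h1
    rw [List.findSome?_eq_none_iff] at hl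
    rw [hl a ha] at hv
    cases hv
  | some w =>
    obtain ⟨a, ha, hv⟩ := List.exists_of_findSome?_eq_some hl
    rw [h2 a ha w hv]

section Wr
variable {W J : Type} {P : ℕ} {M : Machine W J P} {c : J ⊕ M.A} {q : M.Q}
  {w : (J ⊕ M.A) × M.V}

lemma wr_eq (h : M.write q = some w) (hc : w.1 = c) : M.wr c q = some w.2 := by
  unfold Machine.wr
  rw [h]
  exact if_pos hc

lemma wr_ne (h : M.write q = some w) (hc : w.1 ≠ c) : M.wr c q = none := by
  unfold Machine.wr
  rw [h]
  exact if_neg hc

lemma wr_no (h : M.write q = none) : M.wr c q = none := by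
  unfold Machine.wr
  rw [h]
  rfl

end Wr

/-- The machine: the processor `(i, j)` reads `x i`, marks the cell with the address `x i`, reads
`x j` and looks whether the cell with the address `-(x i + x j)` is marked. -/
@[reducible] def zeroMach (n : ℕ) : Machine ℤ (Fin n) (n * n) where
  Q := ℕ × (Fin n × Fin n) × ℤ × ℤ × Bool
  A := ℤ ⊕ Unit
  V := ℤ × Bool
  word := fun w => (w, false)
  blank := (0, false)
  start := fun p => (0, finProdFinEquiv.symm p, 0, 0, false)
  query := fun q => match q.1 with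
    | 0 => [Sum.inl q.2.1.1]
    | 1 => [Sum.inl q.2.1.2]
    | 2 => [Sum.inr (Sum.inl (-(q.2.2.1 + q.2.2.2.1)))]
    | _ => []
  test := fun _ _ => true
  next := fun q o => match q.1, o with
    | 0, some (_, v) => (1, q.2.1, v.1, 0, false)
    | 1, some (_, v) => (2, q.2.1, q.2.2.1, v.1, false)
    | 2, some (_, v) => (3, q.2.1, q.2.2.1, q.2.2.2.1,
        v.2 && decide (q.2.1.1 ≠ q.2.1.2 ∧ 2 * q.2.2.1 + q.2.2.2.1 ≠ 0 ∧ q.2.2.1 + 2 * q.2.2.2.1 ≠ 0))
    | _, _ => (4, q.2.1, 0, 0, false)
  write := fun q => match q.1 with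
    | 1 => some (Sum.inr (Sum.inl q.2.2.1), (q.2.2.1, true))
    | 3 => if q.2.2.2.2 = true then some (Sum.inr (Sum.inr ()), (0, true)) else none
    | _ => none
  out := Sum.inr (Sum.inr ())
  accept := fun v => v.2

lemma zeroMach_lists (n : ℕ) : (zeroMach n).Lists 1 := by
  rintro ⟨t, r⟩
  match t with
  | 0 => exact le_rfl
  | 1 => exact le_rfl
  | 2 => exact le_rfl
  | _ + 3 => exact Nat.zero_le _

section Run
variable {n : ℕ} (x : Fin n → ℤ)

/-- The indices of a processor. -/
abbrev ix (p : Fin (n * n)) : Fin n × Fin n := finProdFinEquiv.symm p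

lemma st1 (p : Fin (n * n)) : ((zeroMach n).run x 1).1 p = (1, ix p, x (ix p).1, 0, false) := rfl

open Classical in
lemma mem1_in (j : Fin n) : ((zeroMach n).run x 1).2 (Sum.inl j) = (x j, false) := by
  show ((List.finRange (n * n)).findSome? (fun p => (zeroMach n).wr (Sum.inl j)
    (((zeroMach n).run x 1).1 p))).getD (x j, false) = (x j, false)
  have : (List.finRange (n * n)).findSome? (fun p => (zeroMach n).wr (Sum.inl j)
    (((zeroMach n).run x 1).1 p)) = none := by
    rw [List.findSome?_eq_none_iff]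
    intro p _
    rw [st1]
    exact wr_ne (w := (Sum.inr (Sum.inl (x (ix p).1)), (x (ix p).1, true))) rfl
      (fun h => by cases h)
  rw [this]
  rfl

open Classical in
lemma mem1_mark (z : ℤ) : ((zeroMach n).run x 1).2 (Sum.inr (Sum.inl z)) =
    if ∃ i, x i = z then (z, true) else (0, false) := by
  show ((List.finRange (n * n)).findSome? (fun p => (zeroMach n).wr (Sum.inr (Sum.inl z))
    (((zeroMach n).run x 1).1 p))).getD (0, false) = _
  have hw : ∀ p : Fin (n * n), (zeroMach n).wr (Sum.inr (Sum.inl z)) (((zeroMach n).run x 1).1 p) =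
      if x (ix p).1 = z then some ((x (ix p).1, true) : ℤ × Bool) else none := by
    intro p
    rw [st1]
    by_cases h : x (ix p).1 = z
    · rw [if_pos h]
      exact wr_eq (M := zeroMach n) (c := Sum.inr (Sum.inl z)) (q := (1, ix p, x (ix p).1, 0, false))
        (w := (Sum.inr (Sum.inl (x (ix p).1)), (x (ix p).1, true))) rfl (by rw [h])
    · rw [if_neg h]
      exact wr_ne (w := (Sum.inr (Sum.inl (x (ix p).1)), (x (ix p).1, true))) rfl
        (fun h' => h (Sum.inl_injective (Sum.inr_injective h')))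
  by_cases h : ∃ i, x i = z
  · rw [if_pos h]
    obtain ⟨i, hi⟩ := h
    have : (List.finRange (n * n)).findSome? (fun p => (zeroMach n).wr (Sum.inr (Sum.inl z))
      (((zeroMach n).run x 1).1 p)) = some ((z, true) : ℤ × Bool) := by
      apply fs_one
      · refine ⟨finProdFinEquiv (i, i), List.mem_finRange _, ?_⟩
        rw [hw]
        have hix : ix (finProdFinEquiv (i, i)) = (i, i) := Equiv.symm_apply_apply _ _
        rw [hix, if_pos hi, hi]
      · intro p _ w hp
        rw [hw] at hp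
        by_cases h2 : x (ix p).1 = z
        · rw [if_pos h2, h2] at hp
          exact (Option.some.inj hp).symm
        · rw [if_neg h2] at hp
          cases hp
    rw [this]
    rfl
  · rw [if_neg h]
    have : (List.finRange (n * n)).findSome? (fun p => (zeroMach n).wr (Sum.inr (Sum.inl z))
      (((zeroMach n).run x 1).1 p)) = none := by
      rw [List.findSome?_eq_none_iff]
      intro p _
      rw [hw]
      exact if_neg (fun h2 => h ⟨_, h2⟩)
    rw [this]
    rfl

open Classical in
lemma mem1_out : ((zeroMach n).run x 1).2 (Sum.inr (Sum.inr ())) = (0, false) := by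
  show ((List.finRange (n * n)).findSome? (fun p => (zeroMach n).wr (Sum.inr (Sum.inr ()))
    (((zeroMach n).run x 1).1 p))).getD (0, false) = (0, false)
  have : (List.finRange (n * n)).findSome? (fun p => (zeroMach n).wr (Sum.inr (Sum.inr ()))
    (((zeroMach n).run x 1).1 p)) = none := by
    rw [List.findSome?_eq_none_iff]
    intro p _
    rw [st1]
    exact wr_ne (w := (Sum.inr (Sum.inl (x (ix p).1)), (x (ix p).1, true))) rfl
      (fun h => by cases (Sum.inr_injective h))
  rw [this]
  rfl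

lemma st2 (p : Fin (n * n)) :
    ((zeroMach n).run x 2).1 p = (2, ix p, x (ix p).1, x (ix p).2, false) := by
  show (2, ix p, x (ix p).1, (((zeroMach n).run x 1).2 (Sum.inl (ix p).2)).1, false) = _
  rw [mem1_in]

open Classical in
lemma mem2 (c : Fin n ⊕ (ℤ ⊕ Unit)) :
    ((zeroMach n).run x 2).2 c = ((zeroMach n).run x 1).2 c := by
  show ((List.finRange (n * n)).findSome? (fun p => (zeroMach n).wr c
    (((zeroMach n).run x 2).1 p))).getD (((zeroMach n).run x 1).2 c) = _
  have : (List.finRange (n * n)).findSome? (fun p => (zeroMach n).wr c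
    (((zeroMach n).run x 2).1 p)) = none := by
    rw [List.findSome?_eq_none_iff]
    intro p _
    rw [st2]
    rfl
  rw [this]
  rfl

open Classical in
lemma st3 (p : Fin (n * n)) : ((zeroMach n).run x 3).1 p = (3, ix p, x (ix p).1, x (ix p).2,
    decide ((∃ k, x k = -(x (ix p).1 + x (ix p).2)) ∧ (ix p).1 ≠ (ix p).2 ∧ 2 * x (ix p).1 + x (ix p).2 ≠ 0 ∧
      x (ix p).1 + 2 * x (ix p).2 ≠ 0)) := by
  have h1 : ((zeroMach n).run x 3).1 p = (zeroMach n).next (((zeroMach n).run x 2).1 p)
      ((zeroMach n).find (((zeroMach n).run x 2).1 p) ((zeroMach n).run x 2).2) := rfl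
  rw [h1, st2]
  show (3, ix p, x (ix p).1, x (ix p).2,
    ((((zeroMach n).run x 2).2 (Sum.inr (Sum.inl (-(x (ix p).1 + x (ix p).2))))).2 &&
      decide ((ix p).1 ≠ (ix p).2 ∧ 2 * x (ix p).1 + x (ix p).2 ≠ 0 ∧ x (ix p).1 + 2 * x (ix p).2 ≠ 0))) = _
  rw [mem2, mem1_mark]
  by_cases h : ∃ k, x k = -(x (ix p).1 + x (ix p).2)
  · rw [if_pos h]
    by_cases hQ : (ix p).1 ≠ (ix p).2 ∧ 2 * x (ix p).1 + x (ix p).2 ≠ 0 ∧ x (ix p).1 + 2 * x (ix p).2 ≠ 0
    · rw [decide_eq_true hQ, decide_eq_true (And.intro h hQ)]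
      rfl
    · rw [decide_eq_false hQ, decide_eq_false (fun h' => hQ h'.2)]
      rfl
  · have h3 : decide ((∃ k, x k = -(x (ix p).1 + x (ix p).2)) ∧ (ix p).1 ≠ (ix p).2 ∧
        2 * x (ix p).1 + x (ix p).2 ≠ 0 ∧ x (ix p).1 + 2 * x (ix p).2 ≠ 0) = false := decide_eq_false (fun h' => h h'.1)
    rw [if_neg h, h3]
    rfl

open Classical in
lemma mem3_out : (((zeroMach n).run x 3).2 (Sum.inr (Sum.inr ()))).2 = true ↔
    ∃ i j, (∃ k, x k = -(x i + x j)) ∧ i ≠ j ∧ 2 * x i + x j ≠ 0 ∧ x i + 2 * x j ≠ 0 := by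
  have hw : ∀ p : Fin (n * n), (zeroMach n).wr (Sum.inr (Sum.inr ()))
      (((zeroMach n).run x 3).1 p) = if ((∃ k, x k = -(x (ix p).1 + x (ix p).2)) ∧
      (ix p).1 ≠ (ix p).2 ∧ 2 * x (ix p).1 + x (ix p).2 ≠ 0 ∧ x (ix p).1 + 2 * x (ix p).2 ≠ 0) then
      some ((0, true) : ℤ × Bool) else none := by
    intro p
    rw [st3]
    by_cases h : ((∃ k, x k = -(x (ix p).1 + x (ix p).2)) ∧
      (ix p).1 ≠ (ix p).2 ∧ 2 * x (ix p).1 + x (ix p).2 ≠ 0 ∧ x (ix p).1 + 2 * x (ix p).2 ≠ 0)
    · rw [if_pos h, decide_eq_true h]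
      exact wr_eq (M := zeroMach n) (c := Sum.inr (Sum.inr ()))
        (q := (3, ix p, x (ix p).1, x (ix p).2, true)) (w := (Sum.inr (Sum.inr ()), (0, true)))
        rfl rfl
    · rw [if_neg h, decide_eq_false h]
      exact wr_no rfl
  have hrun : ((zeroMach n).run x 3).2 (Sum.inr (Sum.inr ())) =
      ((List.finRange (n * n)).findSome? (fun p => (zeroMach n).wr (Sum.inr (Sum.inr ()))
      (((zeroMach n).run x 3).1 p))).getD (((zeroMach n).run x 2).2 (Sum.inr (Sum.inr ()))) := rfl
  rw [hrun, mem2, mem1_out]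
  by_cases h : ∃ i j, (∃ k, x k = -(x i + x j)) ∧ i ≠ j ∧ 2 * x i + x j ≠ 0 ∧ x i + 2 * x j ≠ 0
  · obtain ⟨i, j, hij⟩ := h
    have : (List.finRange (n * n)).findSome? (fun p => (zeroMach n).wr (Sum.inr (Sum.inr ()))
      (((zeroMach n).run x 3).1 p)) = some ((0, true) : ℤ × Bool) := by
      apply fs_one
      · refine ⟨finProdFinEquiv (i, j), List.mem_finRange _, ?_⟩
        have hix : ix (finProdFinEquiv (i, j)) = (i, j) := Equiv.symm_apply_apply _ _
        rw [hw, hix, if_pos hij]
      · intro p _ w hp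
        rw [hw] at hp
        split_ifs at hp with h2
        exact (Option.some.inj hp).symm
    rw [this]
    exact ⟨fun _ => ⟨i, j, hij⟩, fun _ => rfl⟩
  · have : (List.finRange (n * n)).findSome? (fun p => (zeroMach n).wr (Sum.inr (Sum.inr ()))
      (((zeroMach n).run x 3).1 p)) = none := by
      rw [List.findSome?_eq_none_iff]
      intro p _
      rw [hw]
      exact if_neg (fun h2 => h ⟨_, _, h2⟩)
    rw [this]
    constructor
    · intro h'
      cases h'
    · intro h'
      exact absurd h' h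

open Classical in
lemma late (t : ℕ) : (∀ p, 3 ≤ (((zeroMach n).run x (t + 3)).1 p).1) ∧
    ((zeroMach n).run x (t + 3)).2 (Sum.inr (Sum.inr ())) =
    ((zeroMach n).run x 3).2 (Sum.inr (Sum.inr ())) := by
  induction t with
  | zero =>
    refine ⟨fun p => ?_, rfl⟩
    rw [Nat.zero_add, st3]
  | succ t ih =>
    obtain ⟨h1, h2⟩ := ih
    have hst : ∀ p, ∃ r, ((zeroMach n).run x (t + 1 + 3)).1 p = (4, r) := by
      intro p
      have h3 := h1 p
      have e : ((zeroMach n).run x (t + 1 + 3)).1 p =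
          (zeroMach n).next (((zeroMach n).run x (t + 3)).1 p)
          ((zeroMach n).find (((zeroMach n).run x (t + 3)).1 p) ((zeroMach n).run x (t + 3)).2) := rfl
      rw [e]
      generalize ((zeroMach n).run x (t + 3)).1 p = q at h3
      obtain ⟨q0, r⟩ := q
      obtain ⟨k, hk⟩ : ∃ k, q0 = k + 3 := ⟨q0 - 3, by dsimp only at h3; omega⟩
      subst hk
      exact ⟨_, rfl⟩
    refine ⟨fun p => ?_, ?_⟩
    · obtain ⟨r, hr⟩ := hst p
      rw [hr]
      show 3 ≤ 4
      norm_num
    · have e : ((zeroMach n).run x (t + 1 + 3)).2 (Sum.inr (Sum.inr ())) =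
        ((List.finRange (n * n)).findSome? (fun p => (zeroMach n).wr (Sum.inr (Sum.inr ()))
        (((zeroMach n).run x (t + 1 + 3)).1 p))).getD
          (((zeroMach n).run x (t + 3)).2 (Sum.inr (Sum.inr ()))) := rfl
      rw [e]
      have : (List.finRange (n * n)).findSome? (fun p => (zeroMach n).wr (Sum.inr (Sum.inr ()))
          (((zeroMach n).run x (t + 1 + 3)).1 p)) = none := by
        rw [List.findSome?_eq_none_iff]
        intro p _
        obtain ⟨r, hr⟩ := hst p
        rw [hr]
        rfl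
      rw [this]
      exact h2

end Run

/-- The machine is correct. -/
theorem zeroMach_correct {n : ℕ} (x : Fin n → ℤ) (hx : Function.Injective x) (T : ℕ) (hT : 3 ≤ T) :
    (zeroMach n).answer T x = true ↔ ZeroYes x := by
  classical
  obtain ⟨t, rfl⟩ : ∃ t, T = t + 3 := ⟨T - 3, by omega⟩
  have h1 : (zeroMach n).answer (t + 3) x =
      (((zeroMach n).run x (t + 3)).2 (Sum.inr (Sum.inr ()))).2 := rfl
  rw [h1, (late x t).2, mem3_out]
  constructor
  · rintro ⟨i, j, ⟨k, hk⟩, h2, h3, h4⟩
    refine ⟨i, j, k, h2, ?_, ?_, by linarith⟩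
    · rintro rfl
      apply h3
      linarith
    · rintro rfl
      apply h4
      linarith
  · rintro ⟨i, j, k, h2, h3, h4, hk⟩
    refine ⟨i, j, ⟨k, by linarith⟩, h2, ?_, ?_⟩
    · intro h
      exact h3 (hx (by linarith))
    · intro h
      exact h4 (hx (by linarith))

end Pool.Agent.X240.PM
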